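import Mathlib
import Pool.Agent.H64.PV.PPul

set_option autoImplicit false

namespace Pool.Agent.Results.MP_40f29e_nt.EllipticRing

/-- The field of algebraic numbers. -/
abbrev Qbar := AlgebraicClosure ℚ

/-- All coefficients of `f` lie in `Zbar[1/N]`, for some `N ≥ 1`. -/
def GloballyBounded (f : PowerSeries Qbar) : Prop :=
  ∃ N : ℕ, 1 ≤ N ∧ ∀ n : ℕ, ∃ e : ℕ, IsIntegral ℤ ((N : Qbar) ^ e * PowerSeries.coeff n f)

/-- `f` is algebraic over the field of rational functions. -/
def AlgebraicSeries (f : PowerSeries Qbar) : Prop :=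
  ∃ d : ℕ, ∃ Q : ℕ → Polynomial Qbar, (∃ i ∈ Finset.range (d + 1), Q i ≠ 0) ∧
    ∑ i ∈ Finset.range (d + 1), ((Q i : Polynomial Qbar) : PowerSeries Qbar) * f ^ i = 0

/-- `y(t)` solves Legendre's equation `k (1 - k) y'' + (1 - 2 k) y' - y / 4 = 0` at the point `c`,
where `k = c + t`. -/
def Legendre (c : Qbar) (y : PowerSeries Qbar) : Prop :=
  (PowerSeries.C c + PowerSeries.X) * (1 - (PowerSeries.C c + PowerSeries.X)) *
      PowerSeries.derivative Qbar (PowerSeries.derivative Qbar y) +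
    (1 - 2 * (PowerSeries.C c + PowerSeries.X)) * PowerSeries.derivative Qbar y -
    PowerSeries.C (1 / 4) * y = 0

/-- The composition `y(κ(t) - κ(0))`: if `y(t)` is the expansion of a function at the point `κ(0)`
then this is the expansion of the function of `κ(t)` at `t = 0`. -/
noncomputable def comp (y κ : PowerSeries Qbar) : PowerSeries Qbar :=
  y.subst (κ - PowerSeries.C (PowerSeries.coeff 0 κ))

/-- Let `κ₁, ..., κₘ` be algebraic power series over `Qbar` with `κⱼ(0) ≠ 0, 1`, and `yⱼ, zⱼ` power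
series solutions of Legendre's equation at the point `κⱼ(0)`. Let `f` be a power series such that
`q f = P(yⱼ(κⱼ), zⱼ(κⱼ), yⱼ'(κⱼ), zⱼ'(κⱼ); j = 1, ..., m)`, where `P` is a polynomial in these `4 m`
functions with algebraic coefficients and `q ≠ 0` is algebraic. If `f` is in `Zbar[1/N][[t]]` for
some `N ≥ 1` then `f` is algebraic. -/
theorem result (m : ℕ) (κ : Fin m → PowerSeries Qbar) (hκ : ∀ j, AlgebraicSeries (κ j))
    (h0 : ∀ j, PowerSeries.coeff 0 (κ j) ≠ 0) (h1 : ∀ j, PowerSeries.coeff 0 (κ j) ≠ 1)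
    (y z : Fin m → PowerSeries Qbar) (hy : ∀ j, Legendre (PowerSeries.coeff 0 (κ j)) (y j))
    (hz : ∀ j, Legendre (PowerSeries.coeff 0 (κ j)) (z j))
    (P : MvPolynomial (Fin m × Fin 4) (PowerSeries Qbar)) (hP : ∀ r, AlgebraicSeries (P.coeff r))
    (q f : PowerSeries Qbar) (hq : AlgebraicSeries q) (hq0 : q ≠ 0)
    (hf : q * f = MvPolynomial.eval (fun x => ![comp (y x.1) (κ x.1), comp (z x.1) (κ x.1),
      comp (PowerSeries.derivative Qbar (y x.1)) (κ x.1),
      comp (PowerSeries.derivative Qbar (z x.1)) (κ x.1)] x.2) P)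
    (hb : GloballyBounded f) : AlgebraicSeries f :=
  Pool.Agent.H64.PV.main4 m κ hκ h0 h1 y z hy hz P hP q f hq hq0 hf hb

end Pool.Agent.Results.MP_40f29e_nt.EllipticRing
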