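import Mathlib
import Pool.Agent.H61.QF.Main
import Pool.Agent.H61.QF.Ei

set_option autoImplicit false

namespace Pool.Agent.Results.MP_40f29e_nt.TwistedEuler

/-- The field of algebraic numbers. -/
abbrev Qbar := AlgebraicClosure ℚ

/-- The Pochhammer symbol `(x)_n = x (x+1) ... (x+n-1)`. -/
def poch (x : ℚ) (n : ℕ) : ℚ := ∏ i ∈ Finset.range n, (x + i)

/-- The coefficient `(b_1)_n ... (b_k)_n / ((c_1)_n ... (c_k)_n)`. -/
def hyp {k : ℕ} (b c : Fin k → ℚ) (n : ℕ) : ℚ := ∏ j, poch (b j) n / poch (c j) n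

/-- The binomial series `(1 - z/a)^(-μ)`, with coefficients `(μ)_n / n! * a^(-n)`. -/
noncomputable def binSer (μ : ℚ) (a : Qbar) : PowerSeries Qbar :=
  PowerSeries.mk fun n => ((poch μ n / (n.factorial : ℚ) : ℚ) : Qbar) * (a⁻¹) ^ n

/-- The power series `∑ h(n) A_n z^n`, for `A = ∑ A_n z^n`. -/
noncomputable def had (h : ℕ → ℚ) (A : PowerSeries Qbar) : PowerSeries Qbar :=
  PowerSeries.mk fun n => ((h n : ℚ) : Qbar) * PowerSeries.coeff n A

/-- All coefficients of `f` lie in `Zbar[1/N]`, for some `N ≥ 1`. -/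
def GloballyBounded (f : PowerSeries Qbar) : Prop :=
  ∃ N : ℕ, 1 ≤ N ∧ ∀ n : ℕ, ∃ e : ℕ, IsIntegral ℤ ((N : Qbar) ^ e * PowerSeries.coeff n f)

/-- `f` is algebraic over the field of rational functions. -/
def AlgebraicSeries (f : PowerSeries Qbar) : Prop :=
  ∃ d : ℕ, ∃ Q : ℕ → Polynomial Qbar, (∃ i ∈ Finset.range (d + 1), Q i ≠ 0) ∧
    ∑ i ∈ Finset.range (d + 1), ((Q i : Polynomial Qbar) : PowerSeries Qbar) * f ^ i = 0

/-- `G` solves `q_r G^(r) + ... + q_1 G' + q_0 G = 0`. -/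
def Solves (r : ℕ) (q : ℕ → Polynomial Qbar) (G : PowerSeries Qbar) : Prop :=
  ∑ i ∈ Finset.range (r + 1), ((q i : Polynomial Qbar) : PowerSeries Qbar) *
    (⇑(PowerSeries.derivative Qbar))^[i] G = 0

/-- `x` is not an integer. -/
def NonInt (x : ℚ) : Prop := ∀ l : ℤ, x ≠ l

/-- `6 x` is an integer. -/
def SixInt (x : ℚ) : Prop := ∃ l : ℤ, 6 * x = l

/-- Let `f = ∑_n ∏_j (b_j)_n/(c_j)_n * A_n z^n` with `A = ∏_i (1 - z/a_i)^(-μ_i) * G`, where `G` is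
a nonzero power series solution of a linear differential equation with polynomial coefficients
which is nonsingular at `a_1, ..., a_m`, and nonsingular at `0` (or `G` is in `Zbar[1/N][[z]]`).
If `f` is algebraic or in `Zbar[1/N][[z]]` for some `N ≥ 1`, then `m ≤ 4` and all the parameters
are in `(1/6) Z`. -/
theorem result {k m r : ℕ} (b c : Fin k → ℚ) (μ : Fin m → ℚ) (a : Fin m → Qbar)
    (q : ℕ → Polynomial Qbar) (G : PowerSeries Qbar)
    (hk : 1 ≤ k)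
    (hm : 3 ≤ m ∨ (m = 2 ∧ k = 1 ∧ ∀ j, NonInt (c j - ∑ i, μ i)))
    (ha0 : ∀ i, a i ≠ 0) (hainj : Function.Injective a)
    (hμ : ∀ i, NonInt (μ i)) (hc : ∀ j, NonInt (c j)) (hbc : ∀ i j, NonInt (b i - c j))
    (hb : ∀ j, ∀ l : ℕ, b j ≠ -(l : ℚ))
    (hG : G ≠ 0) (hsol : Solves r q G)
    (hqa : ∀ i, (q r).eval (a i) ≠ 0)
    (hG0 : (q r).eval 0 ≠ 0 ∨ GloballyBounded G)
    (hf : AlgebraicSeries (had (hyp b c) ((∏ i, binSer (μ i) (a i)) * G)) ∨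
      GloballyBounded (had (hyp b c) ((∏ i, binSer (μ i) (a i)) * G))) :
    m ≤ 4 ∧ (∀ i, SixInt (μ i)) ∧ (∀ j, SixInt (b j)) ∧ ∀ j, SixInt (c j) :=
  Pool.H61.QF.main b c μ a q G hk hm ha0 hainj hμ hb hc hbc hG hqa hsol
    (hG0.imp_right (Pool.H61.QF.tame_of_gb G))
    (hf.elim (fun h => Pool.H61.QF.eisenstein _ h) id)

end Pool.Agent.Results.MP_40f29e_nt.TwistedEuler
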